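import Mathlib
import Pool.Agent.TH198.AT.Stmts
set_option autoImplicit false

open MeasureTheory ProbabilityTheory Set

namespace Pool.TH198.AT
namespace CASE2

/-! ### moments of the standard normal law -/

theorem int_pow (n : ℕ) : Integrable (fun z : ℝ => z ^ n) (gaussianReal 0 1) := by
  have h := integrable_pow_of_mem_interior_integrableExpSet (X := fun z : ℝ => z)
    (μ := gaussianReal 0 1) (by rw [integrableExpSet_fun_id_gaussianReal]; simp) n
  exact h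

theorem dexp (P : ℝ → ℝ) (P' : ℝ → ℝ) (hP : ∀ t, HasDerivAt P (P' t) t) :
    deriv (fun t : ℝ => P t * Real.exp (t ^ 2 / 2)) =
      fun t => (P' t + t * P t) * Real.exp (t ^ 2 / 2) := by
  funext t
  have h1 : HasDerivAt (fun t : ℝ => Real.exp (t ^ 2 / 2)) (Real.exp (t ^ 2 / 2) * t) t := by
    have h2 : HasDerivAt (fun t : ℝ => t ^ 2 / 2) t t := by
      have := (hasDerivAt_pow 2 t).div_const 2
      have e : ((2 : ℕ) : ℝ) * t ^ (2 - 1) / 2 = t := by norm_num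
      rw [e] at this
      exact this
    exact h2.exp
  have h3 := ((hP t).mul h1).deriv
  have h4 : (P * fun t : ℝ => Real.exp (t ^ 2 / 2)) = fun t : ℝ => P t * Real.exp (t ^ 2 / 2) := rfl
  rw [h4] at h3
  rw [h3]; ring

theorem mom (n : ℕ) : ∫ z, z ^ n ∂(gaussianReal 0 1) =
    iteratedDeriv n (fun t : ℝ => 1 * Real.exp (t ^ 2 / 2)) 0 := by
  have h := iteratedDeriv_mgf_zero (X := fun z : ℝ => z)
    (μ := gaussianReal 0 1) (by rw [integrableExpSet_fun_id_gaussianReal]; simp) n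
  rw [mgf_fun_id_gaussianReal] at h
  have h2 : (fun t : ℝ => Real.exp (0 * t + ((1 : NNReal) : ℝ) * t ^ 2 / 2)) =
      fun t : ℝ => 1 * Real.exp (t ^ 2 / 2) := by
    funext t; simp
  rw [h2] at h
  rw [h]; rfl

theorem d1 : deriv (fun t : ℝ => (1 : ℝ) * Real.exp (t ^ 2 / 2)) =
    fun t => t * Real.exp (t ^ 2 / 2) := by
  rw [dexp (fun _ => 1) (fun _ => 0) (fun t => hasDerivAt_const t 1)]
  funext t; ring

theorem d2 : deriv (fun t : ℝ => t * Real.exp (t ^ 2 / 2)) =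
    fun t => (1 + t ^ 2) * Real.exp (t ^ 2 / 2) := by
  rw [dexp (fun t => t) (fun _ => 1) (fun t => hasDerivAt_id t)]
  funext t; ring

theorem d3 : deriv (fun t : ℝ => (1 + t ^ 2) * Real.exp (t ^ 2 / 2)) =
    fun t => (3 * t + t ^ 3) * Real.exp (t ^ 2 / 2) := by
  rw [dexp (fun t => 1 + t ^ 2) (fun t => 2 * t)
    (fun t => by simpa using (hasDerivAt_pow 2 t).const_add 1)]
  funext t; ring

theorem d4 : deriv (fun t : ℝ => (3 * t + t ^ 3) * Real.exp (t ^ 2 / 2)) =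
    fun t => (3 + 3 * t ^ 2 + t * (3 * t + t ^ 3)) * Real.exp (t ^ 2 / 2) := by
  rw [dexp (fun t => 3 * t + t ^ 3) (fun t => 3 + 3 * t ^ 2)
    (fun t => by
      have h1 : HasDerivAt (fun t : ℝ => 3 * t) (3 * 1) t := (hasDerivAt_id t).const_mul 3
      have h2 : HasDerivAt (fun t : ℝ => t ^ 3) (((3 : ℕ) : ℝ) * t ^ (3 - 1)) t := hasDerivAt_pow 3 t
      have h3 : HasDerivAt (fun t : ℝ => 3 * t + t ^ 3) (3 * 1 + ((3 : ℕ) : ℝ) * t ^ (3 - 1)) t :=
        h1.add h2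
      have e : (3 : ℝ) * 1 + ((3 : ℕ) : ℝ) * t ^ (3 - 1) = 3 + 3 * t ^ 2 := by norm_num
      rw [e] at h3
      exact h3)]

theorem m1 : ∫ z, z ^ 1 ∂(gaussianReal 0 1) = 0 := by
  rw [mom, iteratedDeriv_succ, iteratedDeriv_zero, d1]; simp

theorem m2 : ∫ z, z ^ 2 ∂(gaussianReal 0 1) = 1 := by
  rw [mom, iteratedDeriv_succ, iteratedDeriv_succ, iteratedDeriv_zero, d1, d2]; simp

theorem m3 : ∫ z, z ^ 3 ∂(gaussianReal 0 1) = 0 := by
  rw [mom, iteratedDeriv_succ, iteratedDeriv_succ, iteratedDeriv_succ, iteratedDeriv_zero, d1, d2,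
    d3]; simp

theorem m4 : ∫ z, z ^ 4 ∂(gaussianReal 0 1) = 3 := by
  rw [mom, iteratedDeriv_succ, iteratedDeriv_succ, iteratedDeriv_succ, iteratedDeriv_succ,
    iteratedDeriv_zero, d1, d2, d3, d4]; simp

theorem int_poly (a0 a1 a2 a3 a4 : ℝ) :
    ∫ z, (a0 + a1 * z ^ 1 + a2 * z ^ 2 + a3 * z ^ 3 + a4 * z ^ 4) ∂(gaussianReal 0 1) =
      a0 + a2 + 3 * a4 := by
  have i1 := (int_pow 1).const_mul a1
  have i2 := (int_pow 2).const_mul a2
  have i3 := (int_pow 3).const_mul a3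
  have i4 := (int_pow 4).const_mul a4
  have i0 : Integrable (fun _ : ℝ => a0) (gaussianReal 0 1) := integrable_const _
  have j1 : Integrable (fun z : ℝ => a0 + a1 * z ^ 1) (gaussianReal 0 1) := i0.add i1
  have j2 : Integrable (fun z : ℝ => a0 + a1 * z ^ 1 + a2 * z ^ 2) (gaussianReal 0 1) := j1.add i2
  have j3 : Integrable (fun z : ℝ => a0 + a1 * z ^ 1 + a2 * z ^ 2 + a3 * z ^ 3)
    (gaussianReal 0 1) := j2.add i3
  rw [integral_add j3 i4, integral_add j2 i3,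
    integral_add j1 i2, integral_add i0 i1,
    integral_const_mul, integral_const_mul, integral_const_mul, integral_const_mul,
    m1, m2, m3, m4]
  simp; ring

theorem integrable_poly (a0 a1 a2 a3 a4 : ℝ) :
    Integrable (fun z : ℝ => a0 + a1 * z ^ 1 + a2 * z ^ 2 + a3 * z ^ 3 + a4 * z ^ 4)
      (gaussianReal 0 1) := by
  have i1 := (int_pow 1).const_mul a1
  have i2 := (int_pow 2).const_mul a2
  have i3 := (int_pow 3).const_mul a3
  have i4 := (int_pow 4).const_mul a4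
  have i0 : Integrable (fun _ : ℝ => a0) (gaussianReal 0 1) := integrable_const _
  exact (((i0.add i1).add i2).add i3).add i4

/-! ### elementary inequalities -/

theorem cosh_sq_ge (x : ℝ) : 1 + x ^ 2 ≤ Real.cosh x ^ 2 := by
  rw [Real.cosh_sq]
  have h : x ^ 2 ≤ Real.sinh x ^ 2 := by
    rw [sq_le_sq]
    rcases le_total 0 x with hx | hx
    · rw [abs_of_nonneg hx, abs_of_nonneg (Real.sinh_nonneg_iff.mpr hx)]
      exact Real.self_le_sinh_iff.mpr hx
    · rw [abs_of_nonpos hx, abs_of_nonpos (Real.sinh_nonpos_iff.mpr hx)]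
      have := Real.sinh_le_self_iff.mpr hx
      linarith
  linarith

theorem tanh_sq (x : ℝ) : Real.tanh x ^ 2 = 1 - sech x ^ 2 := by
  have hc := Real.cosh_pos x
  rw [Real.tanh_eq_sinh_div_cosh, sech, div_pow, inv_pow, eq_sub_iff_add_eq, ← one_div,
    ← add_div, div_eq_one_iff_eq (by positivity)]
  rw [Real.cosh_sq]

theorem tanh_lower (c x : ℝ) : 2 * c * x ^ 2 - c ^ 2 * (x ^ 2 + x ^ 4) ≤ Real.tanh x ^ 2 := by
  rw [tanh_sq, sech, inv_pow]
  have h1 := cosh_sq_ge x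
  have h2 : (Real.cosh x ^ 2)⁻¹ ≤ (1 + x ^ 2)⁻¹ := inv_anti₀ (by positivity) h1
  have h3 : 2 * c * x ^ 2 - c ^ 2 * (x ^ 2 + x ^ 4) ≤ 1 - (1 + x ^ 2)⁻¹ := by
    have h4 : 1 - (1 + x ^ 2)⁻¹ - (2 * c * x ^ 2 - c ^ 2 * (x ^ 2 + x ^ 4)) =
        x ^ 2 * (1 - c * (1 + x ^ 2)) ^ 2 / (1 + x ^ 2) := by
      field_simp; ring
    have h5 : 0 ≤ x ^ 2 * (1 - c * (1 + x ^ 2)) ^ 2 / (1 + x ^ 2) := by positivity
    linarith
  linarith

theorem exp_low (s : ℝ) : 1 + s ≤ Real.exp ((s + 1 / 2) / 2) := by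
  have h1 : Real.exp ((s + 1 / 2) / 2) = 2 * Real.exp ((s + 1 / 2) / 2 - Real.log 2) := by
    rw [Real.exp_sub, Real.exp_log (by norm_num)]; ring
  have h2 := Real.add_one_le_exp ((s + 1 / 2) / 2 - Real.log 2)
  have h3 := Real.log_two_lt_d9
  rw [h1]; linarith

theorem sech_cont : Continuous sech := by
  unfold sech
  exact Real.continuous_cosh.inv₀ (fun x => (Real.cosh_pos x).ne')

theorem sech_pos (x : ℝ) : 0 < sech x := inv_pos.mpr (Real.cosh_pos x)

theorem sech_le (x : ℝ) : sech x ≤ 1 := by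
  unfold sech
  exact inv_le_one_of_one_le₀ (Real.one_le_cosh x)

theorem sech_neg (x : ℝ) : sech (-x) = sech x := by
  unfold sech; rw [Real.cosh_neg]

theorem sech_sq_bdd (x : ℝ) : ‖sech x ^ 2‖ ≤ 1 := by
  rw [Real.norm_eq_abs, abs_of_nonneg (by positivity)]
  exact pow_le_one₀ (sech_pos x).le (sech_le x)

theorem int_sech (h s : ℝ) : Integrable (fun z => sech (h + √s * z) ^ 2) (gaussianReal 0 1) := by
  refine Integrable.of_bound (C := 1) ?_ (Filter.Eventually.of_forall fun z => sech_sq_bdd _)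
  exact ((sech_cont.comp (by fun_prop)).pow 2).aestronglyMeasurable

theorem E_tanh (h s : ℝ) : E1 (fun z => Real.tanh (h + √s * z) ^ 2) =
    1 - E1 (fun z => sech (h + √s * z) ^ 2) := by
  unfold E1
  have h1 : (fun z : ℝ => Real.tanh (h + √s * z) ^ 2) = fun z => 1 - sech (h + √s * z) ^ 2 := by
    funext z; exact tanh_sq _
  rw [h1, integral_sub (integrable_const _) (int_sech h s)]
  simp

/-! ### first part: `X²` and Cauchy–Schwarz -/

theorem part1 (s h : ℝ) (hs : 0 < s)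
    (hH : 0 ≤ (h ^ 2) ^ 2 + h ^ 2 * s * (1 - 4 * s) - 2 * s ^ 3) :
    s * E1 (fun z => sech (h + √s * z) ^ 2) ≤ E1 (fun z => Real.tanh (h + √s * z) ^ 2) := by
  have hE := E_tanh h s
  set T := E1 (fun z => Real.tanh (h + √s * z) ^ 2) with hT
  set D := E1 (fun z => sech (h + √s * z) ^ 2) with hD
  have hDT : D = 1 - T := by linarith
  rw [hDT]
  -- lower bound for T
  have hsq : √s ^ 2 = s := Real.sq_sqrt hs.le
  have hlow : ∀ c : ℝ, 2 * c * (h ^ 2 + s) -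
      c ^ 2 * (h ^ 2 + s + (h ^ 4 + 6 * h ^ 2 * s + 3 * s ^ 2)) ≤ T := by
    intro c
    have h1 : ∀ z : ℝ, 2 * c * (h + √s * z) ^ 2 - c ^ 2 * ((h + √s * z) ^ 2 + (h + √s * z) ^ 4) =
        (2 * c * h ^ 2 - c ^ 2 * (h ^ 2 + h ^ 4)) +
        (2 * c * (2 * h * √s) - c ^ 2 * (2 * h * √s + 4 * h ^ 3 * √s)) * z ^ 1 +
        (2 * c * s - c ^ 2 * (s + 6 * h ^ 2 * s)) * z ^ 2 +
        (- c ^ 2 * (4 * h * s * √s)) * z ^ 3 +
        (- c ^ 2 * s ^ 2) * z ^ 4 := by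
      intro z
      have e1 : (h + √s * z) ^ 2 = h ^ 2 + 2 * h * √s * z + √s ^ 2 * z ^ 2 := by ring
      have e2 : (h + √s * z) ^ 4 = h ^ 4 + 4 * h ^ 3 * √s * z + 6 * h ^ 2 * (√s ^ 2) * z ^ 2 +
          4 * h * (√s ^ 2) * √s * z ^ 3 + (√s ^ 2) ^ 2 * z ^ 4 := by ring
      rw [e1, e2, hsq]; ring
    have h2 := int_poly (2 * c * h ^ 2 - c ^ 2 * (h ^ 2 + h ^ 4))
      (2 * c * (2 * h * √s) - c ^ 2 * (2 * h * √s + 4 * h ^ 3 * √s))
      (2 * c * s - c ^ 2 * (s + 6 * h ^ 2 * s)) (- c ^ 2 * (4 * h * s * √s)) (- c ^ 2 * s ^ 2)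
    have h3 := integrable_poly (2 * c * h ^ 2 - c ^ 2 * (h ^ 2 + h ^ 4))
      (2 * c * (2 * h * √s) - c ^ 2 * (2 * h * √s + 4 * h ^ 3 * √s))
      (2 * c * s - c ^ 2 * (s + 6 * h ^ 2 * s)) (- c ^ 2 * (4 * h * s * √s)) (- c ^ 2 * s ^ 2)
    have h4 : Integrable (fun z : ℝ => Real.tanh (h + √s * z) ^ 2) (gaussianReal 0 1) := by
      have h5 : (fun z : ℝ => Real.tanh (h + √s * z) ^ 2) = fun z => 1 - sech (h + √s * z) ^ 2 := by
        funext z; exact tanh_sq _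
      rw [h5]
      exact (integrable_const _).sub (int_sech h s)
    have h6 := integral_mono h3 h4 (fun z => by
      rw [← h1 z]; exact tanh_lower c _)
    rw [h2] at h6
    have h7 : (2 * c * h ^ 2 - c ^ 2 * (h ^ 2 + h ^ 4)) + (2 * c * s - c ^ 2 * (s + 6 * h ^ 2 * s)) +
        3 * (- c ^ 2 * s ^ 2) = 2 * c * (h ^ 2 + s) -
      c ^ 2 * (h ^ 2 + s + (h ^ 4 + 6 * h ^ 2 * s + 3 * s ^ 2)) := by ring
    rw [h7] at h6
    exact h6
  set A := h ^ 2 + s with hA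
  set B := h ^ 2 + s + (h ^ 4 + 6 * h ^ 2 * s + 3 * s ^ 2) with hB
  have hA0 : 0 < A := by positivity
  have hB0 : 0 < B := by positivity
  have h1 := hlow (A / B)
  have h2 : 2 * (A / B) * A - (A / B) ^ 2 * B = A ^ 2 / B := by field_simp; ring
  rw [h2] at h1
  have h3 : s * B ≤ (1 + s) * A ^ 2 := by
    rw [hA, hB]; nlinarith [hH]
  have h4 : s ≤ (1 + s) * (A ^ 2 / B) := by
    rw [← mul_div_assoc, le_div_iff₀ hB0]; exact h3
  have h5 : (1 + s) * (A ^ 2 / B) ≤ (1 + s) * T := by gcongr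
  linarith

/-! ### second part: Cameron–Martin -/

theorem phi_shift (a z : ℝ) : gaussianPDFReal 0 1 (z - a) =
    Real.exp (-a ^ 2 / 2) * (Real.exp (a * z) * gaussianPDFReal 0 1 z) := by
  simp only [gaussianPDFReal_def]
  have e : Real.exp (-(z - a - 0) ^ 2 / (2 * ((1 : NNReal) : ℝ))) =
      Real.exp (-a ^ 2 / 2) * (Real.exp (a * z) * Real.exp (-(z - 0) ^ 2 / (2 * ((1 : NNReal) : ℝ)))) := by
    rw [← Real.exp_add, ← Real.exp_add]
    congr 1
    push_cast; ring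
  rw [e]; ring

theorem D_shift (s h a : ℝ) (ha : √s * a = h) :
    E1 (fun z => sech (h + √s * z) ^ 2) =
      ∫ z, gaussianPDFReal 0 1 (z - a) * sech (√s * z) ^ 2 := by
  unfold E1
  rw [integral_gaussianReal_eq_integral_smul (by norm_num)]
  rw [← integral_sub_right_eq_self (fun z => gaussianPDFReal 0 1 z • sech (h + √s * z) ^ 2) a]
  refine integral_congr_ae (Filter.Eventually.of_forall fun z => ?_)
  change gaussianPDFReal 0 1 (z - a) • sech (h + √s * (z - a)) ^ 2 = _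
  rw [smul_eq_mul, mul_sub, ha]
  congr 3; ring

theorem int_phi_sech (s a : ℝ) :
    Integrable (fun z => gaussianPDFReal 0 1 (z - a) * sech (√s * z) ^ 2) := by
  have h1 : Integrable (fun z => gaussianPDFReal 0 1 (z - a)) :=
    (integrable_gaussianPDFReal 0 1).comp_sub_right a
  refine Integrable.mul_bdd (c := 1) h1 ?_ (Filter.Eventually.of_forall fun z => sech_sq_bdd _)
  exact ((sech_cont.comp (by fun_prop)).pow 2).aestronglyMeasurable

theorem D_shift' (s h a : ℝ) (ha : √s * a = h) :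
    E1 (fun z => sech (h + √s * z) ^ 2) =
      ∫ z, gaussianPDFReal 0 1 (z - (-a)) * sech (√s * z) ^ 2 := by
  rw [D_shift s h a ha, ← integral_neg_eq_self]
  refine integral_congr_ae (Filter.Eventually.of_forall fun z => ?_)
  change gaussianPDFReal 0 1 (-z - a) * sech (√s * -z) ^ 2 = _
  have h1 : sech (√s * -z) = sech (√s * z) := by rw [mul_neg, sech_neg]
  have h2 : gaussianPDFReal 0 1 (-z - a) = gaussianPDFReal 0 1 (z - (-a)) := by
    simp only [gaussianPDFReal_def]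
    congr 2
    ring
  rw [h1, h2]

theorem sinh_le (x : ℝ) : Real.sinh x ^ 2 ≤ x ^ 2 * Real.cosh x ^ 2 := by
  have key : ∀ x : ℝ, 0 < x → Real.sinh x ≤ x * Real.cosh x := by
    intro x hx
    obtain ⟨c, hc, hc2⟩ := exists_deriv_eq_slope Real.sinh hx Real.continuous_sinh.continuousOn
      Real.differentiable_sinh.differentiableOn
    rw [Real.deriv_sinh, Real.sinh_zero, sub_zero, sub_zero, eq_div_iff hx.ne'] at hc2
    have h1 : Real.cosh c ≤ Real.cosh x := by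
      rw [Real.cosh_le_cosh, abs_of_pos hc.1, abs_of_pos hx]; exact hc.2.le
    rw [← hc2, mul_comm]
    gcongr
  have key2 : ∀ x : ℝ, 0 < x → Real.sinh x ^ 2 ≤ x ^ 2 * Real.cosh x ^ 2 := by
    intro x hx
    rw [← mul_pow]
    have := Real.sinh_nonneg_iff.mpr hx.le
    gcongr
    exact key x hx
  rcases lt_trichotomy x 0 with hx | hx | hx
  · have := key2 (-x) (by linarith)
    rw [Real.sinh_neg, Real.cosh_neg, neg_sq, neg_sq] at this
    exact this
  · subst hx; simp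
  · exact key2 x hx

theorem cosh_bound (a s z : ℝ) (ha : |a| ≤ 2 * √s) :
    Real.cosh (a * z) * sech (√s * z) ^ 2 ≤ 1 + √s ^ 2 * z ^ 2 := by
  have h1 : Real.cosh (a * z) ≤ Real.cosh (2 * (√s * z)) := by
    rw [Real.cosh_le_cosh, abs_mul, abs_mul, abs_mul]
    have : |(2 : ℝ)| = 2 := abs_of_pos (by norm_num)
    rw [this, abs_of_nonneg (Real.sqrt_nonneg s), ← mul_assoc]
    gcongr
  set x := √s * z with hx
  have hc := Real.cosh_pos x
  have h2 : Real.cosh (2 * x) * sech x ^ 2 ≤ 1 + x ^ 2 := by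
    rw [Real.cosh_two_mul, sech, inv_pow, ← div_eq_mul_inv, div_le_iff₀ (by positivity)]
    have h3 := sinh_le x
    linarith
  have h5 : 0 ≤ sech x ^ 2 := by positivity
  calc Real.cosh (a * z) * sech x ^ 2 ≤ Real.cosh (2 * x) * sech x ^ 2 := by gcongr
    _ ≤ 1 + x ^ 2 := h2
    _ = 1 + √s ^ 2 * z ^ 2 := by rw [hx]; ring

theorem part2 (s h : ℝ) (hs : 0 < s) (h0 : 0 ≤ h) (hh : h ≤ 2 * s) (hH : 2 * s ^ 2 + s ≤ h ^ 2) :
    s * E1 (fun z => sech (h + √s * z) ^ 2) ≤ E1 (fun z => Real.tanh (h + √s * z) ^ 2) := by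
  have hE := E_tanh h s
  have hr : 0 < √s := Real.sqrt_pos.mpr hs
  have hsq : √s ^ 2 = s := Real.sq_sqrt hs.le
  set a := h / √s with ha
  have ha' : √s * a = h := by rw [ha]; field_simp
  have ha0 : 0 ≤ a := by positivity
  have ha2 : |a| ≤ 2 * √s := by
    rw [abs_of_nonneg ha0, ha, div_le_iff₀ hr]
    have : 2 * √s * √s = 2 * √s ^ 2 := by ring
    rw [this, hsq]; exact hh
  have haa : a ^ 2 = h ^ 2 / s := by rw [ha, div_pow, hsq]
  have haH : s + 1 / 2 ≤ a ^ 2 / 2 := by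
    rw [haa, le_div_iff₀ (by norm_num), le_div_iff₀ hs]
    nlinarith
  have e1 := D_shift s h a ha'
  have e2 := D_shift' s h a ha'
  have i1 := int_phi_sech s a
  have i2 := int_phi_sech s (-a)
  set D := E1 (fun z => sech (h + √s * z) ^ 2) with hD
  have hDD : 2 * D ≤ 2 * (Real.exp (-a ^ 2 / 2) * (1 + s)) := by
    have h1 : 2 * D = ∫ z, (gaussianPDFReal 0 1 (z - a) * sech (√s * z) ^ 2 +
        gaussianPDFReal 0 1 (z - (-a)) * sech (√s * z) ^ 2) := by
      rw [integral_add i1 i2, ← e1, ← e2]; ring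
    have h2 : ∫ z, (1 + 0 * z ^ 1 + s * z ^ 2 + 0 * z ^ 3 + 0 * z ^ 4) ∂(gaussianReal 0 1) =
      1 + s + 3 * 0 := int_poly 1 0 s 0 0
    rw [integral_gaussianReal_eq_integral_smul (by norm_num)] at h2
    have h2i : Integrable (fun z : ℝ => gaussianPDFReal 0 1 z •
        (1 + 0 * z ^ 1 + s * z ^ 2 + 0 * z ^ 3 + 0 * z ^ 4)) := by
      have h3 := integrable_poly 1 0 s 0 0
      by_contra hcon
      rw [integral_undef hcon] at h2
      linarith
    have h4 : 2 * (Real.exp (-a ^ 2 / 2) * (1 + s)) =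
        ∫ z, 2 * Real.exp (-a ^ 2 / 2) * (gaussianPDFReal 0 1 z •
        (1 + 0 * z ^ 1 + s * z ^ 2 + 0 * z ^ 3 + 0 * z ^ 4)) := by
      rw [integral_const_mul, h2]; ring
    rw [h1, h4]
    refine integral_mono (i1.add i2) (h2i.const_mul _) fun z => ?_
    change gaussianPDFReal 0 1 (z - a) * sech (√s * z) ^ 2 +
        gaussianPDFReal 0 1 (z - (-a)) * sech (√s * z) ^ 2 ≤ 2 * Real.exp (-a ^ 2 / 2) *
        (gaussianPDFReal 0 1 z • (1 + 0 * z ^ 1 + s * z ^ 2 + 0 * z ^ 3 + 0 * z ^ 4))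
    rw [phi_shift a z, phi_shift (-a) z, smul_eq_mul]
    have h5 := cosh_bound a s z ha2
    rw [hsq, Real.cosh_eq] at h5
    have h6 : 0 ≤ gaussianPDFReal 0 1 z := gaussianPDFReal_nonneg _ _ _
    have h7 : 0 ≤ Real.exp (-a ^ 2 / 2) := (Real.exp_pos _).le
    have h8 : (-a) ^ 2 = a ^ 2 := by ring
    have h9 : Real.exp (-(-a) ^ 2 / 2) = Real.exp (-a ^ 2 / 2) := by rw [h8]
    rw [h9]
    have h10 : Real.exp (-a * z) = Real.exp (-(a * z)) := by rw [neg_mul]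
    rw [h10]
    calc _ = 2 * Real.exp (-a ^ 2 / 2) * (gaussianPDFReal 0 1 z *
          ((Real.exp (a * z) + Real.exp (-(a * z))) / 2 * sech (√s * z) ^ 2)) := by ring
      _ ≤ 2 * Real.exp (-a ^ 2 / 2) * (gaussianPDFReal 0 1 z * (1 + s * z ^ 2)) := by gcongr
      _ = _ := by ring
  have h1 : D ≤ Real.exp (-a ^ 2 / 2) * (1 + s) := by linarith
  have h2 : Real.exp (-a ^ 2 / 2) ≤ Real.exp (-(s + 1 / 2)) := by
    apply Real.exp_le_exp.mpr; linarith
  have h3 := exp_low s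
  have h4 : (1 + s) ^ 2 ≤ Real.exp (s + 1 / 2) := by
    have : Real.exp (s + 1 / 2) = Real.exp ((s + 1 / 2) / 2) ^ 2 := by
      rw [← Real.exp_nat_mul]; congr 1; push_cast; ring
    rw [this]; gcongr
  have h5 : Real.exp (-(s + 1 / 2)) * (1 + s) ^ 2 ≤ 1 := by
    rw [Real.exp_neg, inv_mul_le_iff₀ (Real.exp_pos _), mul_one]; exact h4
  have h6 : (1 + s) * D ≤ 1 := by
    calc (1 + s) * D ≤ (1 + s) * (Real.exp (-a ^ 2 / 2) * (1 + s)) := by gcongr
      _ ≤ (1 + s) * (Real.exp (-(s + 1 / 2)) * (1 + s)) := by gcongr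
      _ = Real.exp (-(s + 1 / 2)) * (1 + s) ^ 2 := by ring
      _ ≤ 1 := h5
  rw [hE]; linarith

end CASE2

open CASE2

/-- Case II of the de Almeida–Thouless analysis -/
theorem t_CASE2 : St_CASE2 := by
  intro s h hs h0 hH
  by_cases h1 : h ≤ 2 * s
  · exact part2 s h hs h0 h1 hH
  · refine part1 s h hs ?_
    push Not at h1
    have h2 : 4 * s ^ 2 ≤ h ^ 2 := by nlinarith
    set H := h ^ 2 with hHdef
    -- H (H + s - 4 s²) ≥ H s ≥ 4 s³
    have h3 : s ≤ H + s - 4 * s ^ 2 := by linarith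
    have h4 : H * s ≤ H * (H + s - 4 * s ^ 2) := by gcongr
    have h5 : 4 * s ^ 2 * s ≤ H * s := by gcongr
    have h6 : 0 < s ^ 3 := by positivity
    nlinarith

end Pool.TH198.AT
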